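import Mathlib

set_option autoImplicit false

namespace Pool.Agent.Results.MP_453038_al.Exists

open Set Cardinal

universe u

variable {G : Type u} [Group G]

/-- The product `AB` is direct. -/
def Direct (A B : Set G) : Prop :=
  ∀ a ∈ A, ∀ a' ∈ A, ∀ b ∈ B, ∀ b' ∈ B, a * b = a' * b' → a = a' ∧ b = b'

/-- The right upper subindex. -/
noncomputable def upper (A : Set G) : Cardinal.{u} := ⨆ B : {B // Maximal (Direct A) B}, #B.1

/-- The right lower subindex. -/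
noncomputable def lower (A : Set G) : Cardinal.{u} := ⨅ B : {B // Maximal (Direct A) B}, #B.1

lemma gen (A V : Set G) (e : G) (hV : Direct A V) (cV : #V = #G) (he : ∀ a ∈ A, ∀ a' ∈ A, a ≠ a' * e)
    (ne : A.Nonempty)
    (h : ∀ g, (∃ a ∈ A, ∃ a' ∈ A, a * g = a') ∨ ∃ a ∈ A, ∃ a' ∈ A, a * g = a' * e) :
    lower A = 2 ∧ upper A = #G := by
  have d : ∀ b, Direct A {b, e * b} := by
    rintro b a ha a' ha' _ (rfl | rfl) _ (rfl | rfl) k
    · simpa using k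
    · exact (he a ha a' ha' (by simpa [← mul_assoc] using k)).elim
    · exact (he a' ha' a ha (by simpa [← mul_assoc] using k.symm)).elim
    · simpa using k
  have e1 : ∀ b, b ≠ e * b := fun b k => let ⟨a, ha⟩ := ne
    he a ha a ha (by rw [right_eq_mul.1 k, mul_one])
  have m : Maximal (Direct A) {1, e * 1} := ⟨d 1, fun B hB k g hg => by
    rcases h g with ⟨a, ha, a', ha', l⟩ | ⟨a, ha, a', ha', l⟩
    exacts [.inl (hB a ha a' ha' g hg 1 (k (.inl rfl)) (by simpa using l)).2,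
      .inr (hB a ha a' ha' g hg _ (k (.inr rfl)) (by simpa using l)).2]⟩
  have : Nonempty {B // Maximal (Direct A) B} := ⟨⟨_, m⟩⟩
  refine ⟨le_antisymm ((ciInf_le' _ ⟨_, m⟩).trans_eq ?_) (le_ciInf fun ⟨B, hB⟩ => ?_),
    le_antisymm (ciSup_le' fun B => mk_set_le _) ?_⟩
  · rw [mk_insert (by simpa using e1 1), mk_singleton]; norm_num
  · refine (two_le_iff.2 (by_contra fun n => ?_) : 2 ≤ #B)
    push Not at n
    obtain ⟨b, hb⟩ : ∃ b, B ⊆ {b, e * b} := by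
      rcases B.eq_empty_or_nonempty with rfl | ⟨b, hb⟩
      exacts [⟨1, empty_subset _⟩, ⟨b, fun c hc => .inl (congrArg Subtype.val (n ⟨c, hc⟩ ⟨b, hb⟩))⟩]
    exact e1 b (congrArg Subtype.val
      (n ⟨_, hB.2 (d b) hb (.inl rfl)⟩ ⟨_, hB.2 (d b) hb (.inr rfl)⟩))
  · obtain ⟨B, k, hB⟩ := zorn_subset_nonempty {B | Direct A B} (fun c hc ch _ =>
      ⟨⋃₀ c, by
        rintro a ha a' ha' b ⟨s, hs, hb⟩ b' ⟨t, ht, hb'⟩
        rcases ch.total hs ht with l | l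
        exacts [hc ht a ha a' ha' b (l hb) b' hb', hc hs a ha a' ha' b hb b' (l hb')],
        fun _ => subset_sUnion_of_mem⟩) V hV
    exact (cV.symm.trans_le (mk_le_mk_of_subset k)).trans
      (le_ciSup (f := fun B : {B // Maximal (Direct A) B} => #B.1) (bddAbove_range _) ⟨B, hB⟩)

lemma ex (K : Type u) [Field K] [Infinite K] (P : Type) [Group P] [Finite P] :
    ∃ A : Set (Multiplicative (K × K × K × ZMod 2) × P), lower A = 2 ∧ upper A = #K := by
  have c : #(Multiplicative (K × K × K × ZMod 2) × P) = #K := by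
    have := Fintype.ofFinite P
    have q : ∀ n : ℕ, n ≠ 0 → #K * n = #K := fun n hn =>
      mul_eq_left (aleph0_le_mk K) (natCast_lt_aleph0.le.trans (aleph0_le_mk K)) (by simpa)
    have q2 : #K * 2 = #K := q 2 two_ne_zero
    simp [q2, q _ Fintype.card_ne_zero]
  rw [← c]
  have z : ∀ t : ZMod 2, t = 0 ∨ t = 1 := by decide
  refine ⟨_, gen {g | let v := g.1.toAdd; v.2.2.2 = 0 ∧ v.2.2.1 = v.1 * v.2.1 ∨
    v.2.2.2 = 1 ∧ v.1 ≠ 0 ∧ v.2.2.1 = v.1 * v.2.1 + v.1}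
    (range fun t : K => (.ofAdd (0, 0, t, 0), 1)) (.ofAdd (0, 0, 0, 1), 1) ?_ ?_ ?_
    ⟨1, .inl (by simp)⟩ ?_⟩
  · rintro ⟨⟨x, y, s, i⟩, p⟩ ha ⟨⟨x', y', s', i'⟩, p'⟩ ha' _ ⟨t, rfl⟩ _ ⟨t', rfl⟩ k
    obtain ⟨k, l⟩ := Prod.ext_iff.1 k
    have k : (x, y, s, i) + (0, 0, t, 0) = (x', y', s', i') + (0, 0, t', 0) := k
    simp only [Prod.mk_add_mk, add_zero, Prod.mk.injEq, mul_one] at k l
    obtain ⟨rfl, rfl, k, rfl⟩ := k
    have : s = s' := by
      rcases ha with ⟨a, b⟩ | ⟨a, -, b⟩ <;> rcases ha' with ⟨a', b'⟩ | ⟨a', -, b'⟩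
      exacts [b.trans b'.symm, absurd (a.symm.trans a') (by decide),
        absurd (a'.symm.trans a) (by decide), b.trans b'.symm]
    have l' : p = p' := mul_right_cancel l
    subst this l'
    have : t = t' := add_left_cancel ‹s + t = s + t'›
    exact ⟨rfl, by rw [this]⟩
  · rw [c, mk_range_eq _ fun _ _ k => by simpa using k]
  · rintro ⟨⟨x, y, s, i⟩, p⟩ ha ⟨⟨x', y', s', i'⟩, p'⟩ ha' k
    have k : (x, y, s, i) = (x', y', s', i') + (0, 0, 0, 1) := (Prod.ext_iff.1 k).1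
    simp only [Prod.mk_add_mk, add_zero, Prod.mk.injEq] at k
    obtain ⟨rfl, rfl, rfl, rfl⟩ := k
    rcases ha with ⟨a, b⟩ | ⟨a, n, b⟩ <;> rcases ha' with ⟨a', b'⟩ | ⟨a', n', b'⟩
    · exact absurd (show (0 : ZMod 2) + 1 = 0 from (show i' = 0 from a') ▸ a) (by decide)
    · exact n' (left_eq_add.1 (b.symm.trans b'))
    · exact n (left_eq_add.1 (b'.symm.trans b))
    · exact absurd (show (1 : ZMod 2) + 1 = 1 from (show i' = 1 from a') ▸ a) (by decide)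
  · rintro ⟨⟨a, b, c, i⟩, p⟩
    have k : ∀ j : ZMod 2, ∀ x y x' y' s s' : K, ∀ l l' : ZMod 2, x + a = x' → y + b = y' →
        s + c = s' → l + i = l' + j → ((.ofAdd (x, y, s, l), 1) : Multiplicative _ × P) *
        (.ofAdd (a, b, c, i), p) = (.ofAdd (x', y', s', l'), p) * (.ofAdd (0, 0, 0, j), 1) := by
      rintro j x y _ _ s _ l l' rfl rfl rfl h
      simp [← ofAdd_add, h]
    have m : (∃ x y : K, x * y + c = (x + a) * (y + b)) ∨ a = 0 ∧ b = 0 ∧ c ≠ 0 := by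
      by_cases ha : a = 0
      · by_cases hb : b = 0
        · by_cases hc : c = 0
          exacts [.inl ⟨0, 0, by simp [*]⟩, .inr ⟨ha, hb, hc⟩]
        · exact .inl ⟨c / b, 0, by simp [*]⟩
      · exact .inl ⟨0, c / a - b, by field_simp; ring⟩
    rcases m with ⟨x, y, h⟩ | ⟨rfl, rfl, h⟩ <;> rcases z i with rfl | rfl
    · exact .inl ⟨_, .inl ⟨rfl, rfl⟩, _, .inl ⟨rfl, rfl⟩,
        (k 0 x y _ _ _ _ 0 0 rfl rfl h rfl).trans (mul_one _)⟩
    · exact .inr ⟨_, .inl ⟨rfl, rfl⟩, _, .inl ⟨rfl, rfl⟩, k 1 x y _ _ _ _ 0 0 rfl rfl h rfl⟩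
    · exact .inr ⟨(.ofAdd (c, 0, c * 0, 0), 1), .inl ⟨rfl, rfl⟩,
        (.ofAdd (c, 0, c * 0 + c, 1), p), .inr ⟨rfl, h, rfl⟩,
        k 1 c 0 c 0 _ _ 0 1 (add_zero _) (add_zero _) rfl (by decide)⟩
    · exact .inl ⟨(.ofAdd (c, 0, c * 0, 0), 1), .inl ⟨rfl, rfl⟩,
        (.ofAdd (c, 0, c * 0 + c, 1), p), .inr ⟨rfl, h, rfl⟩,
        (k 0 c 0 c 0 _ _ 0 1 (add_zero _) (add_zero _) rfl rfl).trans (mul_one _)⟩

/-- For every infinite cardinal there are an abelian and a non-abelian group with a subset of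
lower subindex two and upper subindex that cardinal. -/
theorem result (α : Cardinal.{u}) (h : ℵ₀ ≤ α) :
    (∃ (G : Type u) (_ : CommGroup G) (A : Set G), lower A = 2 ∧ upper A = α) ∧
    ∃ (G : Type u) (_ : Group G) (A : Set G), (∃ x y : G, x * y ≠ y * x) ∧
      lower A = 2 ∧ upper A = α := by
  induction α using Cardinal.inductionOn with | _ K
  have := infinite_iff.2 h
  obtain ⟨_⟩ := Infinite.nonempty_field (α := K)
  obtain ⟨A, hA⟩ := ex K (Equiv.Perm (Fin 3))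
  exact ⟨⟨_, inferInstance, ex K PUnit⟩, _, inferInstance, A,
    ⟨(1, .swap 0 1), (1, .swap 0 2), fun k => absurd (Prod.ext_iff.1 k).2
      (show ¬((Equiv.swap 0 1 : Equiv.Perm (Fin 3)) * .swap 0 2 = .swap 0 2 * .swap 0 1) by decide)⟩, hA⟩

end Pool.Agent.Results.MP_453038_al.Exists
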